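import Pool.Agent.KS6_83.QS.H

/-!
# Positively curved 5-manifolds with free isometric actions of `S³` and of `SO(3)` (MP_1b4d75_gt)

The library settles Q1 for the group `S³` (a positively curved metric on `S² × S³`).  Here the
question is settled for both groups: the compact connected manifold `S² × SO(3)` (its fundamental
group has order two) carries a positively curved metric for which the free action
`h • (x, r) = (x, r h⁻¹)` of `SO(3)` is isometric, and `S² × S³` one for which the free action of
`S³` is isometric and the projection `S² × S³ → S² × SO(3)` a local isometry.

`SO(3) = S³ / {±1}` is given the smooth atlas for which the projection `S³ → SO(3)` is a local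
diffeomorphism; it is a Lie group for this atlas.  The metric is obtained from the cometric
`|L|² + |M|² + ⟨W (L + M), L + M⟩ + 2 ε ⟨L, v⟩ ⟨M, x⟩ + κ ⟨Q L, L⟩` of the library, where `L` is the
momentum of the rotations of `S²` and `M` is the momentum of the left multiplications of the second
factor; `S² × SO(3)` is immersed in `ℝ³ × ℝ^{3×3}` by the columns of the rotation matrix.
-/

open Bundle Manifold ContDiff

open Pool.Agent.H878R5 Pool.Agent.H878R5.S23 Pool.Agent.KS6_83.QS in
/-- The answer to Q1 is yes for both groups.  `SO(3) = S³ / {±1}` is a Lie group, and the projection
`S³ → SO(3)` is a homomorphism with fibres `{±a}` and a local diffeomorphism.  The compact connected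
manifolds `S² × S³` and `S² × SO(3)` carry metrics of strictly positive sectional curvature for which
the free actions `h • (x, q) = (x, q h⁻¹)` of `S³` and of `SO(3)` are isometric, and the projection
`S² × S³ → S² × SO(3)` is a local isometry of these two metrics. -/
theorem Pool.Agent.Results.MP_1b4d75_gt.BothGroups.result :
    IsRotationGroup ∧ ∃ (g : MetricS2 S3) (g' : MetricS2 SO3),
      IsExample g ∧ IsExample g' ∧ LocalIso g g' (fun p => (p.1, pr p.2)) :=
  ⟨isRotationGroup, both⟩
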